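import Mathlib

set_option autoImplicit false

namespace Pool.Agent.GeoThick

open Finset

/-- `g` is an affine function of the two coordinate functions `x`, `y`. -/
def IsAff {V : Type} (x y : V → ℝ) (g : V → ℝ) : Prop :=
  ∃ a b c : ℝ, ∀ v, g v = a + b * x v + c * y v

/-- Sign patterns of affine functions in the plane have VC dimension at most 2. -/
theorem vcDim_le_two {V I : Type} [Fintype V] [DecidableEq I] [Fintype I]
    (x y : V → ℝ) (f : I → V → ℝ) (hf : ∀ i, IsAff x y (f i)) :
    ((univ : Finset V).image (fun v => univ.filter (fun i => 0 < f i v))).vcDim ≤ 2 := by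
  classical
  unfold vcDim
  apply Finset.sup_le
  intro s hs
  rw [mem_shatterer] at hs
  by_contra hcard
  have hcard : 3 ≤ s.card := by omega
  choose a b c habc using hf
  -- dependent vectors
  let w : Option s → (Fin 3 → ℝ) := fun o => match o with
    | none => ![1, 0, 0]
    | some i => ![a i, b i, c i]
  have hdep : ¬ LinearIndependent ℝ w := by
    intro hli
    have h1 := hli.fintype_card_le_finrank
    simp at h1
    omega
  rw [Fintype.not_linearIndependent_iff] at hdep
  obtain ⟨g, hg0, o, ho⟩ := hdep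
  -- general contradiction
  have key : ∀ g : Option s → ℝ, ∑ o, g o • w o = 0 → 0 ≤ g none → (0 < g none ∨ ∃ i, 0 < g (some i)) → False := by
    intro g hg hnn hpos
    obtain ⟨u, hu, hsu⟩ := hs (t := s.filter (fun i => ∃ hi : i ∈ s, 0 < g (some ⟨i, hi⟩))) (filter_subset _ _)
    rw [mem_image] at hu
    obtain ⟨v, -, rfl⟩ := hu
    have hv : ∀ i : s, 0 < f i v ↔ 0 < g (some i) := by
      intro i
      have : (i : I) ∈ s ∩ univ.filter (fun i => 0 < f i v) ↔ (i : I) ∈ s.filter (fun i => ∃ hi : i ∈ s, 0 < g (some ⟨i, hi⟩)) := by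
        rw [hsu]
      simpa using this
    have e0 := congrFun hg 0
    have e1 := congrFun hg 1
    have e2 := congrFun hg 2
    rw [Fintype.sum_option] at e0 e1 e2
    simp [w, Finset.sum_apply, -Finset.univ_eq_attach] at e0 e1 e2
    have hsum : g none + ∑ i : s, g (some i) * f i v = 0 := by
      have : ∑ i : s, g (some i) * f i v = ∑ i : s, g (some i) * a i + (∑ i : s, g (some i) * b i) * x v + (∑ i : s, g (some i) * c i) * y v := by
        rw [Finset.sum_mul, Finset.sum_mul, ← Finset.sum_add_distrib, ← Finset.sum_add_distrib]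
        apply Finset.sum_congr rfl
        intro i _
        rw [habc i v]
        ring
      rw [this, e1, e2]
      linarith
    have hterm : ∀ i : s, 0 ≤ g (some i) * f i v := by
      intro i
      by_cases hi : 0 < g (some i)
      · exact mul_nonneg hi.le ((hv i).2 hi).le
      · have h2 : ¬ 0 < f i v := fun h => hi ((hv i).1 h)
        push Not at hi h2
        exact mul_nonneg_of_nonpos_of_nonpos hi h2
    have hS : 0 ≤ ∑ i : s, g (some i) * f i v := Finset.sum_nonneg (fun i _ => hterm i)
    rcases hpos with h | ⟨i, hi⟩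
    · linarith
    · have : 0 < ∑ i : s, g (some i) * f i v := by
        apply Finset.sum_pos' (fun i _ => hterm i)
        exact ⟨i, mem_univ _, mul_pos hi ((hv i).2 hi)⟩
      linarith
  -- choose sign
  have hneg : ∑ o, (-g o) • w o = 0 := by
    simp only [neg_smul, Finset.sum_neg_distrib, hg0, neg_zero]
  rcases lt_trichotomy (g none) 0 with h | h | h
  · exact key (fun o => - g o) hneg (by simp; exact h.le) (Or.inl (by simpa using h))
  · rcases o with _ | i
    · exact ho h
    · rcases lt_or_gt_of_ne ho with h2 | h2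
      · exact key (fun o => - g o) hneg (by simp [h]) (Or.inr ⟨i, by simpa using h2⟩)
      · exact key g hg0 h.ge (Or.inr ⟨i, h2⟩)
  · exact key g hg0 h.le (Or.inl h)

theorem card_image_sign_le {V I : Type} [Fintype V] [DecidableEq I] [Fintype I]
    (x y : V → ℝ) (f : I → V → ℝ) (hf : ∀ i, IsAff x y (f i)) :
    ((univ : Finset V).image (fun v => univ.filter (fun i => 0 < f i v))).card
      ≤ (Fintype.card I + 1) ^ 2 := by
  classical
  set 𝒜 := (univ : Finset V).image (fun v => univ.filter (fun i => 0 < f i v)) with h𝒜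
  have h1 := card_le_card_shatterer 𝒜
  have h2 : 𝒜.shatterer.card ≤ ∑ k ∈ Iic 𝒜.vcDim, (Fintype.card I).choose k :=
    card_shatterer_le_sum_vcDim
  have h3 : 𝒜.vcDim ≤ 2 := vcDim_le_two x y f hf
  have h4 : ∑ k ∈ Iic 𝒜.vcDim, (Fintype.card I).choose k ≤ ∑ k ∈ Iic 2, (Fintype.card I).choose k := by
    apply Finset.sum_le_sum_of_subset
    exact Finset.Iic_subset_Iic.2 h3
  have h5 : ∑ k ∈ Iic 2, (Fintype.card I).choose k ≤ (Fintype.card I + 1) ^ 2 := by
    have : (Iic 2 : Finset ℕ) = {0, 1, 2} := by decide
    rw [this]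
    simp
    have h6 : (Fintype.card I).choose 2 ≤ (Fintype.card I) ^ 2 := Nat.choose_le_pow _ _
    nlinarith
  exact (h1.trans h2).trans (h4.trans h5)

end Pool.Agent.GeoThick
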