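import Mathlib
import Pool.Agent.GeoThick.VC

set_option autoImplicit false

namespace Pool.Agent.GeoThick

open Finset

/-- Abscissa at height `h` of the line through the points of `u` and `v`. -/
noncomputable def lx {V : Type} (x y : V → ℝ) (u v : V) (h : ℝ) : ℝ :=
  x u + (h - y u) / (y v - y u) * (x v - x u)

/-- A finite family of upward, vertex-disjoint, pairwise non-crossing segments
`lo a -> hi a` with endpoints in the vertex set `S`. -/
structure Cfg {V α : Type} (x y : V → ℝ) (S : Finset V) (A : Finset α) (lo hi : α → V) : Prop where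
  lo_mem : ∀ a ∈ A, lo a ∈ S
  hi_mem : ∀ a ∈ A, hi a ∈ S
  lt : ∀ a ∈ A, y (lo a) < y (hi a)
  lo_inj : ∀ a ∈ A, ∀ b ∈ A, lo a = lo b → a = b
  hi_inj : ∀ a ∈ A, ∀ b ∈ A, hi a = hi b → a = b
  lo_ne_hi : ∀ a ∈ A, ∀ b ∈ A, lo a ≠ hi b
  nc : ∀ a ∈ A, ∀ b ∈ A, a ≠ b → ∀ h, y (lo a) ≤ h → y (lo b) ≤ h → h ≤ y (hi a) →
    h ≤ y (hi b) → lx x y (lo a) (hi a) h ≠ lx x y (lo b) (hi b) h

/-- Decoding of a group number. -/
noncomputable def gdec (al rt : ℕ → Prop) (bit : Bool) : ℕ :=
  if bit then sSup {g | al g ∧ rt g} else sInf {g | al g ∧ ¬ rt g}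

theorem gdec_eq (al rt : ℕ → Prop) (g : ℕ) (h1 : al g) (h2 : ∀ g' < g, al g' → rt g')
    (h3 : ∀ g', g < g' → al g' → ¬ rt g') : ∃ bit, gdec al rt bit = g := by
  by_cases h : rt g
  · refine ⟨true, ?_⟩
    unfold gdec
    rw [if_pos rfl]
    apply IsGreatest.csSup_eq
    refine ⟨⟨h1, h⟩, ?_⟩
    rintro g' ⟨ha, hr⟩
    by_contra hlt
    push Not at hlt
    exact h3 g' hlt ha hr
  · refine ⟨false, ?_⟩
    unfold gdec
    rw [if_neg (by simp)]
    apply IsLeast.csInf_eq
    refine ⟨⟨h1, h⟩, ?_⟩
    rintro g' ⟨ha, hr⟩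
    by_contra hlt
    push Not at hlt
    exact hr (h2 g' hlt ha)

/-- Two disjoint segments keep their left-right order on their common range of heights. -/
theorem lx_lt_of_lt {V : Type} (x y : V → ℝ) (u v u' v' : V) (t0 t1 : ℝ)
    (hne : ∀ h, min t0 t1 ≤ h → h ≤ max t0 t1 → lx x y u v h ≠ lx x y u' v' h)
    (h0 : lx x y u v t0 < lx x y u' v' t0) : lx x y u v t1 < lx x y u' v' t1 := by
  by_contra hcon
  push Not at hcon
  -- difference function is affine
  set δ : ℝ → ℝ := fun t => lx x y u' v' t - lx x y u v t with hδ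
  have hδ0 : 0 < δ t0 := by simp [hδ]; exact h0
  have hδ1 : δ t1 ≤ 0 := by simp [hδ]; exact hcon
  set l : ℝ := δ t0 / (δ t0 - δ t1) with hl
  have hden : 0 < δ t0 - δ t1 := by linarith
  have hl0 : 0 ≤ l := div_nonneg hδ0.le hden.le
  have hl1 : l ≤ 1 := by rw [hl, div_le_one hden]; linarith
  have haff : δ (t0 + l * (t1 - t0)) = (1 - l) * δ t0 + l * δ t1 := by
    simp only [hδ, lx]
    ring
  have hzero : δ (t0 + l * (t1 - t0)) = 0 := by
    rw [haff, hl]
    field_simp
    ring
  refine hne (t0 + l * (t1 - t0)) ?_ ?_ ?_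
  · rcases le_total t0 t1 with h | h
    · rw [min_eq_left h]; nlinarith
    · rw [min_eq_right h]; nlinarith
  · rcases le_total t0 t1 with h | h
    · rw [max_eq_right h]; nlinarith
    · rw [max_eq_left h]; nlinarith
  · simp only [hδ] at hzero
    linarith

theorem Cfg.lx_lt {V α : Type} {x y : V → ℝ} {S : Finset V} {A : Finset α} {lo hi : α → V}
    (c : Cfg x y S A lo hi) {a b : α} (ha : a ∈ A) (hb : b ∈ A) {t0 t1 : ℝ}
    (ha0 : y (lo a) ≤ t0) (ha0' : t0 ≤ y (hi a)) (hb0 : y (lo b) ≤ t0) (hb0' : t0 ≤ y (hi b))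
    (ha1 : y (lo a) ≤ t1) (ha1' : t1 ≤ y (hi a)) (hb1 : y (lo b) ≤ t1) (hb1' : t1 ≤ y (hi b))
    (h : lx x y (lo a) (hi a) t0 < lx x y (lo b) (hi b) t0) :
    lx x y (lo a) (hi a) t1 < lx x y (lo b) (hi b) t1 := by
  have hab : a ≠ b := by
    rintro rfl
    exact lt_irrefl _ h
  refine lx_lt_of_lt x y _ _ _ _ t0 t1 ?_ h
  intro s hs1 hs2
  exact c.nc a ha b hb hab s ((le_min ha0 ha1).trans hs1) ((le_min hb0 hb1).trans hs1)
    (hs2.trans (max_le ha0' ha1')) (hs2.trans (max_le hb0' hb1'))

/-- The side functional of the segment `u v` : positive exactly strictly to the right. -/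
def side {V : Type} (x y : V → ℝ) (u v : V) : V → ℝ :=
  fun w => (y v - y u) * (x w - x u) - (x v - x u) * (y w - y u)

theorem side_pos_iff {V : Type} (x y : V → ℝ) (u v w : V) (h : y u < y v) :
    0 < side x y u v w ↔ lx x y u v (y w) < x w := by
  have hpos : 0 < y v - y u := by linarith
  have : side x y u v w = (y v - y u) * (x w - lx x y u v (y w)) := by
    unfold side lx
    field_simp
    ring
  rw [this]
  constructor
  · intro h2
    have := (pos_iff_pos_of_mul_pos h2).1 hpos
    linarith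
  · intro h2
    exact mul_pos hpos (by linarith)

theorem side_isAff {V : Type} (x y : V → ℝ) (u v : V) : IsAff x y (side x y u v) :=
  ⟨- (y v - y u) * x u + (x v - x u) * y u, y v - y u, - (x v - x u), fun w => by unfold side; ring⟩

theorem lx_hi {V : Type} (x y : V → ℝ) (u v : V) (h : y u < y v) : lx x y u v (y v) = x v := by
  have : y v - y u ≠ 0 := by
    intro h'
    linarith
  unfold lx
  rw [div_self this]
  ring

theorem lx_lo {V : Type} (x y : V → ℝ) (u v : V) : lx x y u v (y u) = x u := by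
  unfold lx
  simp

/-- The crossing edges at a height `h`, cut into groups of size at most `B`, with the group number
decodable from the signs of few affine functions at either endpoint plus one bit. -/
theorem cross {V α : Type} {x y : V → ℝ} {S : Finset V} {A : Finset α} {lo hi : α → V}
    (c : Cfg x y S A lo hi) (h : ℝ) (hlo : ∀ a ∈ A, y (lo a) ≤ h) (hhi : ∀ a ∈ A, h ≤ y (hi a))
    (Q B : ℕ) (hcard : A.card ≤ Q * B) :
    ∃ (γ : α → ℕ) (f : Fin Q → Fin 4 → V → ℝ), (∀ g i, IsAff x y (f g i)) ∧
      (∀ g, (A.filter (fun a => γ a = g)).card ≤ B) ∧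
      (∀ a ∈ A, ∃ bit, gdec (fun g => ∃ hg : g < Q, ¬ 0 < f ⟨g, hg⟩ 0 (hi a))
        (fun g => ∃ hg : g < Q, 0 < f ⟨g, hg⟩ 1 (hi a)) bit = γ a) ∧
      (∀ a ∈ A, ∃ bit, gdec (fun g => ∃ hg : g < Q, ¬ 0 < f ⟨g, hg⟩ 2 (lo a))
        (fun g => ∃ hg : g < Q, 0 < f ⟨g, hg⟩ 3 (lo a)) bit = γ a) := by
  classical
  -- abscissa at height h
  set φ : α → ℝ := fun a => lx x y (lo a) (hi a) h with hφ
  have hφinj : ∀ a ∈ A, ∀ b ∈ A, φ a = φ b → a = b := by
    intro a ha b hb hab
    by_contra hne
    exact c.nc a ha b hb hne h (hlo a ha) (hlo b hb) (hhi a ha) (hhi b hb) hab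
  set rk : α → ℕ := fun a => (A.filter (fun b => φ b < φ a)).card with hrk
  have hrk_lt : ∀ a ∈ A, rk a < A.card := by
    intro a ha
    apply Finset.card_lt_card
    refine ⟨filter_subset _ _, fun hsub => ?_⟩
    have := hsub ha
    simp at this
  have hrk_mono : ∀ a ∈ A, ∀ b ∈ A, φ a < φ b → rk a < rk b := by
    intro a ha b hb hab
    apply Finset.card_lt_card
    refine ⟨?_, fun hsub => ?_⟩
    · intro d hd
      rw [mem_filter] at hd ⊢
      exact ⟨hd.1, hd.2.trans hab⟩
    · have := hsub (mem_filter.2 ⟨ha, hab⟩)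
      simp at this
  have hrk_inj : ∀ a ∈ A, ∀ b ∈ A, rk a = rk b → a = b := by
    intro a ha b hb hab
    rcases lt_trichotomy (φ a) (φ b) with h1 | h1 | h1
    · have := hrk_mono a ha b hb h1
      omega
    · exact hφinj a ha b hb h1
    · have := hrk_mono b hb a ha h1
      omega
  set γ : α → ℕ := fun a => rk a / B with hγ
  have hγlt : ∀ a ∈ A, γ a < Q := by
    intro a ha
    have h1 := hrk_lt a ha
    exact Nat.div_lt_of_lt_mul (by rw [mul_comm]; omega)
  have hγmono : ∀ a ∈ A, ∀ b ∈ A, γ a < γ b → φ a < φ b := by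
    intro a ha b hb hab
    by_contra hcon
    push Not at hcon
    have : rk b ≤ rk a := by
      apply Finset.card_le_card
      intro d hd
      rw [mem_filter] at hd ⊢
      exact ⟨hd.1, lt_of_lt_of_le hd.2 hcon⟩
    have h2 : rk b / B ≤ rk a / B := Nat.div_le_div_right this
    simp only [hγ] at hab
    omega
  -- separators
  have hup : ∀ g, ∃ o : Option α, (∀ a ∈ A, γ a = g → ∃ u, o = some u ∧ y (hi a) ≤ y (hi u)) ∧
      (∀ u, o = some u → u ∈ A ∧ γ u = g) := by
    intro g
    by_cases hne : (A.filter (fun a => γ a = g)).Nonempty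
    · obtain ⟨u, hu, hmax⟩ := Finset.exists_max_image (A.filter (fun a => γ a = g)) (fun a => y (hi a)) hne
      rw [mem_filter] at hu
      refine ⟨some u, ?_, ?_⟩
      · intro a ha hga
        exact ⟨u, rfl, hmax a (mem_filter.2 ⟨ha, hga⟩)⟩
      · intro u' hu'
        cases hu'
        exact hu
    · refine ⟨none, ?_, ?_⟩
      · intro a ha hga
        exact absurd ⟨a, mem_filter.2 ⟨ha, hga⟩⟩ hne
      · intro u hu
        cases hu
  have hdn : ∀ g, ∃ o : Option α, (∀ a ∈ A, γ a = g → ∃ u, o = some u ∧ y (lo u) ≤ y (lo a)) ∧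
      (∀ u, o = some u → u ∈ A ∧ γ u = g) := by
    intro g
    by_cases hne : (A.filter (fun a => γ a = g)).Nonempty
    · obtain ⟨u, hu, hmin⟩ := Finset.exists_min_image (A.filter (fun a => γ a = g)) (fun a => y (lo a)) hne
      rw [mem_filter] at hu
      refine ⟨some u, ?_, ?_⟩
      · intro a ha hga
        exact ⟨u, rfl, hmin a (mem_filter.2 ⟨ha, hga⟩)⟩
      · intro u' hu'
        cases hu'
        exact hu
    · refine ⟨none, ?_, ?_⟩
      · intro a ha hga
        exact absurd ⟨a, mem_filter.2 ⟨ha, hga⟩⟩ hne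
      · intro u hu
        cases hu
  choose U hU1 hU2 using hup
  choose W hW1 hW2 using hdn
  let F : ℕ → Fin 4 → V → ℝ := fun g i => match i with
    | 0 => match U g with
      | some u => fun v => y v - y (hi u)
      | none => fun _ => 1
    | 1 => match U g with
      | some u => side x y (lo u) (hi u)
      | none => fun _ => 1
    | 2 => match W g with
      | some u => fun v => y (lo u) - y v
      | none => fun _ => 1
    | 3 => match W g with
      | some u => side x y (lo u) (hi u)
      | none => fun _ => 1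
  refine ⟨γ, fun g i => F g i, ?_, ?_, ?_, ?_⟩
  · intro g i
    have hone : IsAff x y (fun _ : V => (1 : ℝ)) := ⟨1, 0, 0, fun _ => by ring⟩
    fin_cases i
    · show IsAff x y (F g 0)
      rcases hUg : U g with _ | u
      · simp only [F, hUg]; exact hone
      · simp only [F, hUg]; exact ⟨- y (hi u), 0, 1, fun v => by ring⟩
    · show IsAff x y (F g 1)
      rcases hUg : U g with _ | u
      · simp only [F, hUg]; exact hone
      · simp only [F, hUg]; exact side_isAff x y _ _
    · show IsAff x y (F g 2)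
      rcases hUg : W g with _ | u
      · simp only [F, hUg]; exact hone
      · simp only [F, hUg]; exact ⟨y (lo u), 0, -1, fun v => by ring⟩
    · show IsAff x y (F g 3)
      rcases hUg : W g with _ | u
      · simp only [F, hUg]; exact hone
      · simp only [F, hUg]; exact side_isAff x y _ _
  · intro g
    rcases Nat.eq_zero_or_pos B with hB | hB
    · subst hB
      have : A.card = 0 := by simpa using hcard
      rw [Finset.card_eq_zero] at this
      simp [this]
    calc (A.filter (fun a => γ a = g)).card = ((A.filter (fun a => γ a = g)).image rk).card := by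
          rw [Finset.card_image_of_injOn]
          intro a ha b hb hab
          simp only [coe_filter, Set.mem_ofPred_eq] at ha hb
          exact hrk_inj a ha.1 b hb.1 hab
      _ ≤ (Finset.Ico (g * B) (g * B + B)).card := by
          apply Finset.card_le_card
          intro r hr
          rw [mem_image] at hr
          obtain ⟨a, ha, rfl⟩ := hr
          rw [mem_filter] at ha
          rw [mem_Ico]
          have h1 : rk a / B = g := ha.2
          have h2 := Nat.div_add_mod (rk a) B
          have h3 := Nat.mod_lt (rk a) hB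
          rw [h1] at h2
          constructor
          · rw [mul_comm]; omega
          · rw [mul_comm]; omega
      _ = B := by simp
  · intro a ha
    apply gdec_eq
    · refine ⟨hγlt a ha, ?_⟩
      obtain ⟨u, hu, hle⟩ := hU1 (γ a) a ha rfl
      simp only [F, hu]
      linarith
    · rintro g' hg' ⟨hg'Q, hal⟩
      refine ⟨hg'Q, ?_⟩
      simp only [F] at hal ⊢
      rcases hUg : U g' with _ | u
      · simp
      · simp only [hUg] at hal ⊢
        obtain ⟨huA, hug⟩ := hU2 g' u hUg
        have hlt : φ u < φ a := hγmono u huA a ha (by omega)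
        rw [side_pos_iff x y _ _ _ (c.lt u huA)]
        have := c.lx_lt huA ha (t0 := h) (t1 := y (hi a)) (hlo u huA) (hhi u huA) (hlo a ha) (hhi a ha)
          ((hlo u huA).trans (hhi a ha)) (by linarith) (c.lt a ha).le le_rfl hlt
        rwa [lx_hi x y _ _ (c.lt a ha)] at this
    · rintro g' hg' ⟨hg'Q, hal⟩ ⟨_, hr⟩
      simp only [F] at hal hr
      rcases hUg : U g' with _ | u
      · simp [hUg] at hal
      · simp only [hUg] at hal hr
        obtain ⟨huA, hug⟩ := hU2 g' u hUg
        have hlt : φ a < φ u := hγmono a ha u huA (by omega)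
        rw [side_pos_iff x y _ _ _ (c.lt u huA)] at hr
        have := c.lx_lt ha huA (t0 := h) (t1 := y (hi a)) (hlo a ha) (hhi a ha) (hlo u huA) (hhi u huA)
          (c.lt a ha).le le_rfl ((hlo u huA).trans (hhi a ha)) (by linarith) hlt
        rw [lx_hi x y _ _ (c.lt a ha)] at this
        linarith
  · intro a ha
    apply gdec_eq
    · refine ⟨hγlt a ha, ?_⟩
      obtain ⟨u, hu, hle⟩ := hW1 (γ a) a ha rfl
      simp only [F, hu]
      linarith
    · rintro g' hg' ⟨hg'Q, hal⟩
      refine ⟨hg'Q, ?_⟩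
      simp only [F] at hal ⊢
      rcases hUg : W g' with _ | u
      · simp
      · simp only [hUg] at hal ⊢
        obtain ⟨huA, hug⟩ := hW2 g' u hUg
        have hlt : φ u < φ a := hγmono u huA a ha (by omega)
        rw [side_pos_iff x y _ _ _ (c.lt u huA)]
        have := c.lx_lt huA ha (t0 := h) (t1 := y (lo a)) (hlo u huA) (hhi u huA) (hlo a ha) (hhi a ha)
          (by linarith) ((hlo a ha).trans (hhi u huA)) le_rfl (c.lt a ha).le hlt
        rwa [lx_lo x y (lo a) (hi a)] at this
    · rintro g' hg' ⟨hg'Q, hal⟩ ⟨_, hr⟩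
      simp only [F] at hal hr
      rcases hUg : W g' with _ | u
      · simp [hUg] at hal
      · simp only [hUg] at hal hr
        obtain ⟨huA, hug⟩ := hW2 g' u hUg
        have hlt : φ a < φ u := hγmono a ha u huA (by omega)
        rw [side_pos_iff x y _ _ _ (c.lt u huA)] at hr
        have := c.lx_lt ha huA (t0 := h) (t1 := y (lo a)) (hlo a ha) (hhi a ha) (hlo u huA) (hhi u huA)
          le_rfl (c.lt a ha).le (by linarith) ((hlo a ha).trans (hhi u huA)) hlt
        rw [lx_lo x y (lo a) (hi a)] at this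
        linarith

end Pool.Agent.GeoThick
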