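import Mathlib
import Pool.Agent.GeoThick.Scheme

set_option autoImplicit false

namespace Pool.Agent.GeoThick

open Finset

theorem exists_threshold (T : Finset ℝ) (m : ℕ) (hT : T.card ≤ 2 * m) :
    ∃ h : ℝ, (T.filter (fun t => t < h)).card ≤ m ∧ (T.filter (fun t => h ≤ t)).card ≤ m := by
  classical
  by_cases hm : T.card ≤ m
  · exact ⟨0, (card_filter_le _ _).trans hm, (card_filter_le _ _).trans hm⟩
  · push Not at hm
    set emb := T.orderEmbOfFin rfl with hemb
    refine ⟨emb ⟨m, hm⟩, ?_, ?_⟩
    · have : T.filter (fun t => t < emb ⟨m, hm⟩) ⊆ (Iio (⟨m, hm⟩ : Fin T.card)).image emb := by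
        intro t ht
        rw [mem_filter] at ht
        have ht2 : t ∈ Set.range emb := by
          rw [hemb, range_orderEmbOfFin]
          exact ht.1
        obtain ⟨i, rfl⟩ := ht2
        rw [mem_image]
        exact ⟨i, by simpa using ht.2, rfl⟩
      refine (card_le_card this).trans (card_image_le.trans ?_)
      simp
    · have h1 : (Iio (⟨m, hm⟩ : Fin T.card)).image emb ⊆ T.filter (fun t => t < emb ⟨m, hm⟩) := by
        intro t ht
        rw [mem_image] at ht
        obtain ⟨i, hi, rfl⟩ := ht
        rw [mem_filter]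
        exact ⟨orderEmbOfFin_mem T rfl i, by simpa using hi⟩
      have h2 : m ≤ (T.filter (fun t => t < emb ⟨m, hm⟩)).card := by
        refine le_trans ?_ (card_le_card h1)
        rw [card_image_of_injective _ emb.injective]
        simp
      have h3 := card_filter_add_card_filter_not (s := T) (fun t => t < emb ⟨m, hm⟩)
      simp only [not_lt] at h3
      omega

theorem exists_median {V : Type} (S : Finset V) (y : V → ℝ) (hy : Set.InjOn y S) (m : ℕ)
    (hS : S.card ≤ 2 * m) :
    ∃ h : ℝ, (S.filter (fun v => y v < h)).card ≤ m ∧ (S.filter (fun v => h ≤ y v)).card ≤ m := by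
  classical
  obtain ⟨h, h1, h2⟩ := exists_threshold (S.image y) m (card_image_le.trans hS)
  refine ⟨h, ?_, ?_⟩
  · rw [filter_image, card_image_of_injOn] at h1
    · exact h1
    · intro a ha b hb hab
      simp only [coe_filter, Set.mem_ofPred_eq] at ha hb
      exact hy ha.1 hb.1 hab
  · rw [filter_image, card_image_of_injOn] at h2
    · exact h2
    · intro a ha b hb hab
      simp only [coe_filter, Set.mem_ofPred_eq] at ha hb
      exact hy ha.1 hb.1 hab

theorem Cfg.mono {V α : Type} {x y : V → ℝ} {S S' : Finset V} {A A' : Finset α} {lo hi : α → V}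
    (c : Cfg x y S A lo hi) (hA : A' ⊆ A) (hlo : ∀ a ∈ A', lo a ∈ S') (hhi : ∀ a ∈ A', hi a ∈ S') :
    Cfg x y S' A' lo hi where
  lo_mem := hlo
  hi_mem := hhi
  lt := fun a ha => c.lt a (hA ha)
  lo_inj := fun a ha b hb => c.lo_inj a (hA ha) b (hA hb)
  hi_inj := fun a ha b hb => c.hi_inj a (hA ha) b (hA hb)
  lo_ne_hi := fun a ha b hb => c.lo_ne_hi a (hA ha) b (hA hb)
  nc := fun a ha b hb => c.nc a (hA ha) b (hA hb)

/-- The universal decoder at one more level. -/
noncomputable def decStep (Q : ℕ) {I C K : Type} (dec : (I → Prop) → C → K)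
    (s : Unit ⊕ (Fin Q × Fin 4) ⊕ I ⊕ I → Prop) (c : Bool ⊕ C) : ℕ ⊕ K ⊕ K := by
  classical
  exact match c with
  | Sum.inl bit => Sum.inl
      (if s (Sum.inl ()) then
        gdec (fun g => ∃ hg : g < Q, ¬ s (Sum.inr (Sum.inl (⟨g, hg⟩, 2))))
          (fun g => ∃ hg : g < Q, s (Sum.inr (Sum.inl (⟨g, hg⟩, 3)))) bit
      else
        gdec (fun g => ∃ hg : g < Q, ¬ s (Sum.inr (Sum.inl (⟨g, hg⟩, 0))))
          (fun g => ∃ hg : g < Q, s (Sum.inr (Sum.inl (⟨g, hg⟩, 1)))) bit)
  | Sum.inr c =>
      if s (Sum.inl ()) then Sum.inr (Sum.inl (dec (fun i => s (Sum.inr (Sum.inr (Sum.inl i)))) c))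
      else Sum.inr (Sum.inr (dec (fun i => s (Sum.inr (Sum.inr (Sum.inr i)))) c))

theorem scheme (D : ℕ) : ∃ (I C K : Type) (_ : Fintype I) (_ : Fintype C)
    (dec : (I → Prop) → C → K),
    Fintype.card I + 1 = 2 ^ D * (2 * D + 1) ∧ Fintype.card C = 2 * D + 1 ∧
    ∀ (V α : Type) (x y : V → ℝ) (B : ℕ) (S : Finset V) (A : Finset α) (lo hi : α → V),
      Cfg x y S A lo hi → Set.InjOn y S → S.card ≤ 2 ^ D * B →
      ∃ (f : I → V → ℝ) (ch : V → C), (∀ i, IsAff x y (f i)) ∧
        (∀ a ∈ A, dec (fun i => 0 < f i (lo a)) (ch (lo a))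
          = dec (fun i => 0 < f i (hi a)) (ch (hi a))) ∧
        (∀ T : Finset α, T ⊆ A → (∀ a ∈ T, ∀ b ∈ T, dec (fun i => 0 < f i (lo a)) (ch (lo a))
          = dec (fun i => 0 < f i (lo b)) (ch (lo b))) → T.card ≤ B) := by
  classical
  induction D with
  | zero =>
    refine ⟨Empty, Unit, Unit, inferInstance, inferInstance, fun _ _ => (), by simp, by simp, ?_⟩
    intro V α x y B S A lo hi c hy hS
    refine ⟨fun i => i.elim, fun _ => (), fun i => i.elim, fun _ _ => rfl, ?_⟩
    intro T hT _
    have h1 : T.card ≤ S.card := by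
      apply Finset.card_le_card_of_injOn lo
      · intro a ha
        exact c.lo_mem a (hT ha)
      · intro a ha b hb hab
        exact c.lo_inj a (hT ha) b (hT hb) hab
    simpa using h1.trans hS
  | succ D ih =>
    obtain ⟨I, C, K, fI, fC, dec, hI, hC, hdec⟩ := ih
    refine ⟨Unit ⊕ (Fin (2 ^ D) × Fin 4) ⊕ I ⊕ I, Bool ⊕ C, ℕ ⊕ K ⊕ K, inferInstance, inferInstance,
      decStep (2 ^ D) dec, ?_, ?_, ?_⟩
    · simp only [Fintype.card_sum, Fintype.card_prod, Fintype.card_fin, Fintype.card_unit]
      rw [pow_succ]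
      nlinarith
    · simp only [Fintype.card_sum, Fintype.card_bool, hC]
      ring
    intro V α x y B S A lo hi c hy hS
    obtain ⟨h, hS1, hS2⟩ := exists_median S y hy (2 ^ D * B) (by rw [pow_succ] at hS; linarith)
    -- lower, upper, crossing edges
    set A1 := A.filter (fun a => y (hi a) < h) with hA1
    set A2 := A.filter (fun a => h ≤ y (lo a)) with hA2
    set A3 := A.filter (fun a => y (lo a) < h ∧ h ≤ y (hi a)) with hA3
    have c1 : Cfg x y (S.filter (fun v => y v < h)) A1 lo hi := by
      refine c.mono (filter_subset _ _) ?_ ?_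
      · intro a ha
        rw [hA1, mem_filter] at ha
        exact mem_filter.2 ⟨c.lo_mem a ha.1, (c.lt a ha.1).trans ha.2⟩
      · intro a ha
        rw [hA1, mem_filter] at ha
        exact mem_filter.2 ⟨c.hi_mem a ha.1, ha.2⟩
    have c2 : Cfg x y (S.filter (fun v => h ≤ y v)) A2 lo hi := by
      refine c.mono (filter_subset _ _) ?_ ?_
      · intro a ha
        rw [hA2, mem_filter] at ha
        exact mem_filter.2 ⟨c.lo_mem a ha.1, ha.2⟩
      · intro a ha
        rw [hA2, mem_filter] at ha
        exact mem_filter.2 ⟨c.hi_mem a ha.1, ha.2.trans (c.lt a ha.1).le⟩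
    have c3 : Cfg x y S A3 lo hi := by
      refine c.mono (filter_subset _ _) ?_ ?_
      · intro a ha
        exact c.lo_mem a (mem_of_mem_filter a ha)
      · intro a ha
        exact c.hi_mem a (mem_of_mem_filter a ha)
    obtain ⟨f1, ch1, hf1, hk1, hB1⟩ := hdec V α x y B _ A1 lo hi c1
      (hy.mono (fun v hv => (mem_filter.1 (mem_coe.1 hv)).1)) hS1
    obtain ⟨f2, ch2, hf2, hk2, hB2⟩ := hdec V α x y B _ A2 lo hi c2
      (hy.mono (fun v hv => (mem_filter.1 (mem_coe.1 hv)).1)) hS2
    have hA3card : A3.card ≤ 2 ^ D * B := by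
      refine le_trans ?_ hS1
      apply Finset.card_le_card_of_injOn lo
      · intro a ha
        simp only [hA3, coe_filter, Set.mem_ofPred_eq] at ha ⊢
        exact ⟨c.lo_mem a ha.1, ha.2.1⟩
      · intro a ha b hb hab
        exact c3.lo_inj a ha b hb hab
    obtain ⟨γ, f3, hf3, hB3, hup, hdn⟩ := cross c3 h
      (fun a ha => by rw [hA3, mem_filter] at ha; exact ha.2.1.le)
      (fun a ha => by rw [hA3, mem_filter] at ha; exact ha.2.2) (2 ^ D) B hA3card
    choose! bu hbu using hup
    choose! bd hbd using hdn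
    let f : Unit ⊕ (Fin (2 ^ D) × Fin 4) ⊕ I ⊕ I → V → ℝ := fun i => match i with
      | Sum.inl _ => fun v => h - y v
      | Sum.inr (Sum.inl (g, j)) => f3 g j
      | Sum.inr (Sum.inr (Sum.inl i)) => f1 i
      | Sum.inr (Sum.inr (Sum.inr i)) => f2 i
    let ch : V → Bool ⊕ C := fun v =>
      if hv : ∃ a ∈ A3, lo a = v then Sum.inl (bd hv.choose)
      else if hv : ∃ a ∈ A3, hi a = v then Sum.inl (bu hv.choose)
      else if y v < h then Sum.inr (ch1 v) else Sum.inr (ch2 v)
    have hch_lo : ∀ a ∈ A3, ch (lo a) = Sum.inl (bd a) := by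
      intro a ha
      have hex : ∃ b ∈ A3, lo b = lo a := ⟨a, ha, rfl⟩
      have : hex.choose = a := c3.lo_inj _ hex.choose_spec.1 _ ha hex.choose_spec.2
      simp only [ch, dif_pos hex, this]
    have hch_hi : ∀ a ∈ A3, ch (hi a) = Sum.inl (bu a) := by
      intro a ha
      have hnex : ¬ ∃ b ∈ A3, lo b = hi a := by
        rintro ⟨b, hb, hab⟩
        exact c3.lo_ne_hi b hb a ha hab
      have hex : ∃ b ∈ A3, hi b = hi a := ⟨a, ha, rfl⟩
      have : hex.choose = a := c3.hi_inj _ hex.choose_spec.1 _ ha hex.choose_spec.2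
      simp only [ch, dif_neg hnex, dif_pos hex, this]
    have hnot3 : ∀ a ∈ A, a ∉ A3 → (¬ ∃ b ∈ A3, lo b = lo a) ∧ (¬ ∃ b ∈ A3, hi b = lo a) ∧
        (¬ ∃ b ∈ A3, lo b = hi a) ∧ (¬ ∃ b ∈ A3, hi b = hi a) := by
      intro a ha hna
      refine ⟨?_, ?_, ?_, ?_⟩
      · rintro ⟨b, hb, hab⟩
        have hbA : b ∈ A := mem_of_mem_filter b hb
        have := c.lo_inj b hbA a ha hab
        exact hna (this ▸ hb)
      · rintro ⟨b, hb, hab⟩
        exact c.lo_ne_hi a ha b (mem_of_mem_filter b hb) hab.symm
      · rintro ⟨b, hb, hab⟩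
        exact c.lo_ne_hi b (mem_of_mem_filter b hb) a ha hab
      · rintro ⟨b, hb, hab⟩
        have hbA : b ∈ A := mem_of_mem_filter b hb
        have := c.hi_inj b hbA a ha hab
        exact hna (this ▸ hb)
    -- computed keys
    have key3lo : ∀ a ∈ A3, decStep (2 ^ D) dec (fun i => 0 < f i (lo a)) (ch (lo a)) = Sum.inl (γ a) := by
      intro a ha
      have hlt : 0 < h - y (lo a) := by
        rw [hA3, mem_filter] at ha
        linarith [ha.2.1]
      rw [hch_lo a ha]
      simp only [decStep, f, if_pos hlt]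
      exact congrArg Sum.inl (hbd a ha)
    have key3hi : ∀ a ∈ A3, decStep (2 ^ D) dec (fun i => 0 < f i (hi a)) (ch (hi a)) = Sum.inl (γ a) := by
      intro a ha
      have hlt : ¬ 0 < h - y (hi a) := by
        rw [hA3, mem_filter] at ha
        linarith [ha.2.2]
      rw [hch_hi a ha]
      simp only [decStep, f, if_neg hlt]
      exact congrArg Sum.inl (hbu a ha)
    have key1 : ∀ a ∈ A1, decStep (2 ^ D) dec (fun i => 0 < f i (lo a)) (ch (lo a))
          = Sum.inr (Sum.inl (dec (fun i => 0 < f1 i (lo a)) (ch1 (lo a)))) ∧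
        decStep (2 ^ D) dec (fun i => 0 < f i (hi a)) (ch (hi a))
          = Sum.inr (Sum.inl (dec (fun i => 0 < f1 i (hi a)) (ch1 (hi a)))) := by
      intro a ha
      rw [hA1, mem_filter] at ha
      have hna : a ∉ A3 := by
        rw [hA3, mem_filter]
        rintro ⟨_, _, h2⟩
        linarith [ha.2]
      obtain ⟨n1, n2, n3, n4⟩ := hnot3 a ha.1 hna
      have hlt1 : y (lo a) < h := (c.lt a ha.1).trans ha.2
      have hlt2 : y (hi a) < h := ha.2
      have hch1 : ch (lo a) = Sum.inr (ch1 (lo a)) := by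
        simp only [ch, dif_neg n1, dif_neg n2, if_pos hlt1]
      have hch2 : ch (hi a) = Sum.inr (ch1 (hi a)) := by
        simp only [ch, dif_neg n3, dif_neg n4, if_pos hlt2]
      have hlt1' : 0 < h - y (lo a) := by linarith
      have hlt2' : 0 < h - y (hi a) := by linarith
      constructor
      · rw [hch1]
        simp only [decStep, f, if_pos hlt1']
      · rw [hch2]
        simp only [decStep, f, if_pos hlt2']
    have key2 : ∀ a ∈ A2, decStep (2 ^ D) dec (fun i => 0 < f i (lo a)) (ch (lo a))
          = Sum.inr (Sum.inr (dec (fun i => 0 < f2 i (lo a)) (ch2 (lo a)))) ∧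
        decStep (2 ^ D) dec (fun i => 0 < f i (hi a)) (ch (hi a))
          = Sum.inr (Sum.inr (dec (fun i => 0 < f2 i (hi a)) (ch2 (hi a)))) := by
      intro a ha
      rw [hA2, mem_filter] at ha
      have hna : a ∉ A3 := by
        rw [hA3, mem_filter]
        rintro ⟨_, h2, _⟩
        linarith [ha.2]
      obtain ⟨n1, n2, n3, n4⟩ := hnot3 a ha.1 hna
      have hlt1 : ¬ y (lo a) < h := not_lt.2 ha.2
      have hlt2 : ¬ y (hi a) < h := not_lt.2 (ha.2.trans (c.lt a ha.1).le)
      have hch1 : ch (lo a) = Sum.inr (ch2 (lo a)) := by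
        simp only [ch, dif_neg n1, dif_neg n2, if_neg hlt1]
      have hch2 : ch (hi a) = Sum.inr (ch2 (hi a)) := by
        simp only [ch, dif_neg n3, dif_neg n4, if_neg hlt2]
      have hlt1' : ¬ 0 < h - y (lo a) := by linarith
      have hlt2' : ¬ 0 < h - y (hi a) := by linarith
      constructor
      · rw [hch1]
        simp only [decStep, f, if_neg hlt1']
      · rw [hch2]
        simp only [decStep, f, if_neg hlt2']
    have htri : ∀ a ∈ A, a ∈ A1 ∨ a ∈ A2 ∨ a ∈ A3 := by
      intro a ha
      by_cases h1 : y (hi a) < h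
      · exact Or.inl (mem_filter.2 ⟨ha, h1⟩)
      · by_cases h2 : h ≤ y (lo a)
        · exact Or.inr (Or.inl (mem_filter.2 ⟨ha, h2⟩))
        · exact Or.inr (Or.inr (mem_filter.2 ⟨ha, not_le.1 h2, not_lt.1 h1⟩))
    refine ⟨f, ch, ?_, ?_, ?_⟩
    · rintro (_ | ⟨g, j⟩ | i | i)
      · exact ⟨h, 0, -1, fun v => by simp only [f]; ring⟩
      · exact hf3 g j
      · exact hf1 i
      · exact hf2 i
    · intro a ha
      rcases htri a ha with h1 | h2 | h3
      · rw [(key1 a h1).1, (key1 a h1).2, hk1 a h1]
      · rw [(key2 a h2).1, (key2 a h2).2, hk2 a h2]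
      · rw [key3lo a h3, key3hi a h3]
    · intro T hT heq
      rcases T.eq_empty_or_nonempty with rfl | ⟨a0, ha0⟩
      · simp
      rcases htri a0 (hT ha0) with h1 | h2 | h3
      · -- all in A1
        have hall : T ⊆ A1 := by
          intro b hb
          rcases htri b (hT hb) with g1 | g2 | g3
          · exact g1
          · have := heq a0 ha0 b hb
            rw [(key1 a0 h1).1, (key2 b g2).1] at this
            simp at this
          · have := heq a0 ha0 b hb
            rw [(key1 a0 h1).1, key3lo b g3] at this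
            simp at this
        apply hB1 T hall
        intro a ha b hb
        have := heq a ha b hb
        rw [(key1 a (hall ha)).1, (key1 b (hall hb)).1] at this
        simpa using this
      · have hall : T ⊆ A2 := by
          intro b hb
          rcases htri b (hT hb) with g1 | g2 | g3
          · have := heq a0 ha0 b hb
            rw [(key2 a0 h2).1, (key1 b g1).1] at this
            simp at this
          · exact g2
          · have := heq a0 ha0 b hb
            rw [(key2 a0 h2).1, key3lo b g3] at this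
            simp at this
        apply hB2 T hall
        intro a ha b hb
        have := heq a ha b hb
        rw [(key2 a (hall ha)).1, (key2 b (hall hb)).1] at this
        simpa using this
      · have hall : T ⊆ A3.filter (fun a => γ a = γ a0) := by
          intro b hb
          rcases htri b (hT hb) with g1 | g2 | g3
          · have := heq a0 ha0 b hb
            rw [key3lo a0 h3, (key1 b g1).1] at this
            simp at this
          · have := heq a0 ha0 b hb
            rw [key3lo a0 h3, (key2 b g2).1] at this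
            simp at this
          · have := heq a0 ha0 b hb
            rw [key3lo a0 h3, key3lo b g3] at this
            rw [mem_filter]
            exact ⟨g3, by simpa using this.symm⟩
        exact (card_le_card hall).trans (hB3 _)

end Pool.Agent.GeoThick
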