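import Mathlib
import Pool.Agent.GeoThick.Scheme2

set_option autoImplicit false

namespace Pool.Agent.GeoThick

open Finset

/-- Number of functions with a small image. -/
theorem card_small_image {V X : Type} [Fintype V] [DecidableEq V] [Fintype X] [DecidableEq X] (P : ℕ) :
    ((univ : Finset (V → X)).filter (fun l => ((univ : Finset V).image l).card ≤ P)).card
      ≤ 2 ^ Fintype.card X * P ^ Fintype.card V := by
  classical
  have hsub : (univ : Finset (V → X)).filter (fun l => ((univ : Finset V).image l).card ≤ P) ⊆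
      ((univ : Finset (Finset X)).filter (fun s => s.card ≤ P)).biUnion
        (fun s => Fintype.piFinset (fun _ : V => s)) := by
    intro l hl
    rw [mem_filter] at hl
    rw [mem_biUnion]
    refine ⟨(univ : Finset V).image l, mem_filter.2 ⟨mem_univ _, hl.2⟩, ?_⟩
    rw [Fintype.mem_piFinset]
    intro v
    exact mem_image_of_mem _ (mem_univ v)
  refine (card_le_card hsub).trans ?_
  have h1 : ∀ s ∈ (univ : Finset (Finset X)).filter (fun s => s.card ≤ P),
      (Fintype.piFinset (fun _ : V => s)).card ≤ P ^ Fintype.card V := by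
    intro s hs
    rw [mem_filter] at hs
    rw [Fintype.card_piFinset]
    simp only [prod_const, card_univ]
    exact Nat.pow_le_pow_left hs.2 _
  refine (card_biUnion_le_card_mul _ _ _ h1).trans ?_
  apply Nat.mul_le_mul_right
  refine (card_filter_le _ _).trans ?_
  simp

theorem lx_comm {V : Type} (x y : V → ℝ) (u v : V) (h : ℝ) (huv : y u ≠ y v) :
    lx x y u v h = lx x y v u h := by
  have h1 : y v - y u ≠ 0 := sub_ne_zero.2 huv.symm
  have h2 : y u - y v ≠ 0 := sub_ne_zero.2 huv
  unfold lx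
  field_simp
  ring

/-- `σ` is drawn in the plane with `k` colours: vertices of the bipartite graph get coordinates
`x`, `y` (with distinct heights) and the edges of each matching of one colour do not cross. -/
def Drawn {d n k : ℕ} (σ : Fin d → Equiv.Perm (Fin n)) (x y : Fin n ⊕ Fin n → ℝ)
    (col : Fin d → Fin n → Fin k) : Prop :=
  Function.Injective y ∧ ∀ j a b, a ≠ b → col j a = col j b → ∀ h,
    min (y (Sum.inl a)) (y (Sum.inr (σ j a))) ≤ h → h ≤ max (y (Sum.inl a)) (y (Sum.inr (σ j a))) →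
    min (y (Sum.inl b)) (y (Sum.inr (σ j b))) ≤ h → h ≤ max (y (Sum.inl b)) (y (Sum.inr (σ j b))) →
    lx x y (Sum.inl a) (Sum.inr (σ j a)) h ≠ lx x y (Sum.inl b) (Sum.inr (σ j b)) h

/-- The key of a vertex, as decoded from its location and its choices. -/
def keyOf {d k : ℕ} {I C K V : Type} (dec : (I → Prop) → C → K)
    (loc : V → Finset (Fin d × Fin k × I)) (cv : V → Fin d → Fin k × C) (j : Fin d) (v : V) :
    Fin k × K :=
  ((cv v j).1, dec (fun i => (j, (cv v j).1, i) ∈ loc v) (cv v j).2)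

theorem code_of_drawn {d n k D B : ℕ} (hn : n = 2 ^ D * B) {I C K : Type} [Fintype I]
    [Fintype C] (dec : (I → Prop) → C → K)
    (hdec : ∀ (V α : Type) (x y : V → ℝ) (B : ℕ) (S : Finset V) (A : Finset α) (lo hi : α → V),
      Cfg x y S A lo hi → Set.InjOn y S → S.card ≤ 2 ^ (D + 1) * B →
      ∃ (f : I → V → ℝ) (ch : V → C), (∀ i, IsAff x y (f i)) ∧
        (∀ a ∈ A, dec (fun i => 0 < f i (lo a)) (ch (lo a))
          = dec (fun i => 0 < f i (hi a)) (ch (hi a))) ∧
        (∀ T : Finset α, T ⊆ A → (∀ a ∈ T, ∀ b ∈ T, dec (fun i => 0 < f i (lo a)) (ch (lo a))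
          = dec (fun i => 0 < f i (lo b)) (ch (lo b))) → T.card ≤ B))
    (σ : Fin d → Equiv.Perm (Fin n)) (x y : Fin n ⊕ Fin n → ℝ) (col : Fin d → Fin n → Fin k)
    (hσ : Drawn σ x y col) :
    ∃ (loc : Fin n ⊕ Fin n → Finset (Fin d × Fin k × I)) (cv : Fin n ⊕ Fin n → Fin d → Fin k × C),
      (∃ f : Fin d × Fin k × I → (Fin n ⊕ Fin n) → ℝ, (∀ i, IsAff x y (f i)) ∧
        ∀ v i, i ∈ loc v ↔ 0 < f i v) ∧
      (∀ j a, keyOf dec loc cv j (Sum.inl a) = keyOf dec loc cv j (Sum.inr (σ j a))) ∧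
      (∀ j, ∀ T : Finset (Fin n), (∀ a ∈ T, ∀ b ∈ T, keyOf dec loc cv j (Sum.inr a) =
        keyOf dec loc cv j (Sum.inr b)) → T.card ≤ B) := by
  classical
  obtain ⟨hyinj, hnc⟩ := hσ
  let lo : Fin d → Fin n → Fin n ⊕ Fin n := fun j a =>
    if y (Sum.inl a) < y (Sum.inr (σ j a)) then Sum.inl a else Sum.inr (σ j a)
  let hi : Fin d → Fin n → Fin n ⊕ Fin n := fun j a =>
    if y (Sum.inl a) < y (Sum.inr (σ j a)) then Sum.inr (σ j a) else Sum.inl a
  have hne : ∀ j a, y (Sum.inl a) ≠ y (Sum.inr (σ j a)) := by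
    intro j a h
    have := hyinj h
    simp at this
  have hcases : ∀ j a, (lo j a = Sum.inl a ∧ hi j a = Sum.inr (σ j a) ∧
      y (Sum.inl a) < y (Sum.inr (σ j a))) ∨
      (lo j a = Sum.inr (σ j a) ∧ hi j a = Sum.inl a ∧ y (Sum.inr (σ j a)) < y (Sum.inl a)) := by
    intro j a
    by_cases h : y (Sum.inl a) < y (Sum.inr (σ j a))
    · left
      exact ⟨if_pos h, if_pos h, h⟩
    · right
      exact ⟨if_neg h, if_neg h, lt_of_le_of_ne (not_lt.1 h) (hne j a).symm⟩
  have hlomin : ∀ j a, y (lo j a) = min (y (Sum.inl a)) (y (Sum.inr (σ j a))) := by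
    intro j a
    rcases hcases j a with ⟨h1, h2, h3⟩ | ⟨h1, h2, h3⟩
    · rw [h1, min_eq_left h3.le]
    · rw [h1, min_eq_right h3.le]
  have hhimax : ∀ j a, y (hi j a) = max (y (Sum.inl a)) (y (Sum.inr (σ j a))) := by
    intro j a
    rcases hcases j a with ⟨h1, h2, h3⟩ | ⟨h1, h2, h3⟩
    · rw [h2, max_eq_right h3.le]
    · rw [h2, max_eq_left h3.le]
  have hlx : ∀ j a h, lx x y (lo j a) (hi j a) h = lx x y (Sum.inl a) (Sum.inr (σ j a)) h := by
    intro j a h
    rcases hcases j a with ⟨h1, h2, h3⟩ | ⟨h1, h2, h3⟩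
    · rw [h1, h2]
    · rw [h1, h2, lx_comm x y _ _ h h3.ne]
  have hcfg : ∀ j t, Cfg x y (univ : Finset (Fin n ⊕ Fin n))
      ((univ : Finset (Fin n)).filter (fun a => col j a = t)) (lo j) (hi j) := by
    intro j t
    refine ⟨fun _ _ => mem_univ _, fun _ _ => mem_univ _, ?_, ?_, ?_, ?_, ?_⟩
    · intro a _
      rcases hcases j a with ⟨h1, h2, h3⟩ | ⟨h1, h2, h3⟩
      · rw [h1, h2]; exact h3
      · rw [h1, h2]; exact h3
    · intro a _ b _ hab
      rcases hcases j a with ⟨h1, h2, h3⟩ | ⟨h1, h2, h3⟩ <;>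
        rcases hcases j b with ⟨g1, g2, g3⟩ | ⟨g1, g2, g3⟩ <;>
        rw [h1, g1] at hab <;> simp at hab <;> exact hab
    · intro a _ b _ hab
      rcases hcases j a with ⟨h1, h2, h3⟩ | ⟨h1, h2, h3⟩ <;>
        rcases hcases j b with ⟨g1, g2, g3⟩ | ⟨g1, g2, g3⟩ <;>
        rw [h2, g2] at hab <;> simp at hab <;> exact hab
    · intro a _ b _ hab
      rcases hcases j a with ⟨h1, h2, h3⟩ | ⟨h1, h2, h3⟩ <;>
        rcases hcases j b with ⟨g1, g2, g3⟩ | ⟨g1, g2, g3⟩ <;>
        rw [h1, g2] at hab <;> simp at hab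
      · subst hab
        exact absurd h3 (not_lt.2 g3.le)
      · subst hab
        exact absurd h3 (not_lt.2 g3.le)
    · intro a ha b hb hab h e1 e2 e3 e4
      rw [mem_filter] at ha hb
      rw [hlx, hlx]
      rw [hlomin] at e1 e2
      rw [hhimax] at e3 e4
      exact hnc j a b hab (ha.2.trans hb.2.symm) h e1 e3 e2 e4
  have hcardV : (univ : Finset (Fin n ⊕ Fin n)).card ≤ 2 ^ (D + 1) * B := by
    simp only [card_univ, Fintype.card_sum, Fintype.card_fin]
    rw [hn, pow_succ]
    linarith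
  have hex := fun j t => hdec (Fin n ⊕ Fin n) (Fin n) x y B univ
    ((univ : Finset (Fin n)).filter (fun a => col j a = t)) (lo j) (hi j) (hcfg j t)
    (hyinj.injOn) hcardV
  choose f ch hf hk hB using hex
  let tv : Fin n ⊕ Fin n → Fin d → Fin k := fun v j => match v with
    | Sum.inl a => col j a
    | Sum.inr b => col j ((σ j).symm b)
  let loc : Fin n ⊕ Fin n → Finset (Fin d × Fin k × I) := fun v =>
    univ.filter (fun i => 0 < f i.1 i.2.1 i.2.2 v)
  let cv : Fin n ⊕ Fin n → Fin d → Fin k × C := fun v j => (tv v j, ch j (tv v j) v)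
  have hkey : ∀ j v, keyOf dec loc cv j v =
      (tv v j, dec (fun i => 0 < f j (tv v j) i v) (ch j (tv v j) v)) := by
    intro j v
    simp only [keyOf, cv, loc, mem_filter, mem_univ, true_and]
  have htv1 : ∀ j a, tv (Sum.inl a) j = col j a := fun j a => rfl
  have htv2 : ∀ j a, tv (Sum.inr (σ j a)) j = col j a := by
    intro j a
    simp only [tv, Equiv.symm_apply_apply]
  have hkeylo : ∀ j a, keyOf dec loc cv j (Sum.inl a) =
      (col j a, dec (fun i => 0 < f j (col j a) i (lo j a)) (ch j (col j a) (lo j a))) := by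
    intro j a
    have hk1 := hk j (col j a) a (mem_filter.2 ⟨mem_univ _, rfl⟩)
    rw [hkey, htv1]
    rcases hcases j a with ⟨h1, h2, h3⟩ | ⟨h1, h2, h3⟩
    · rw [h1]
    · rw [hk1, h2]
  have hkeyhi : ∀ j a, keyOf dec loc cv j (Sum.inr (σ j a)) =
      (col j a, dec (fun i => 0 < f j (col j a) i (lo j a)) (ch j (col j a) (lo j a))) := by
    intro j a
    have hk1 := hk j (col j a) a (mem_filter.2 ⟨mem_univ _, rfl⟩)
    rw [hkey, htv2]
    rcases hcases j a with ⟨h1, h2, h3⟩ | ⟨h1, h2, h3⟩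
    · rw [hk1, h2]
    · rw [h1]
  refine ⟨loc, cv, ⟨fun i => f i.1 i.2.1 i.2.2, fun i => hf _ _ _, ?_⟩, ?_, ?_⟩
  · intro v i
    simp only [loc, mem_filter, mem_univ, true_and]
  · intro j a
    rw [hkeylo, hkeyhi]
  · intro j T hT
    rcases T.eq_empty_or_nonempty with rfl | ⟨b0, hb0⟩
    · simp
    set T' := T.image (σ j).symm with hT'
    have hcard : T'.card = T.card := card_image_of_injective _ (σ j).symm.injective
    rw [← hcard]
    set t0 := col j ((σ j).symm b0) with ht0
    have hkk : ∀ a ∈ T', ∀ b ∈ T', keyOf dec loc cv j (Sum.inr (σ j a)) =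
        keyOf dec loc cv j (Sum.inr (σ j b)) := by
      intro a ha b hb
      rw [hT', mem_image] at ha hb
      obtain ⟨a', ha', rfl⟩ := ha
      obtain ⟨b', hb', rfl⟩ := hb
      simp only [Equiv.apply_symm_apply]
      exact hT a' ha' b' hb'
    have hb0' : (σ j).symm b0 ∈ T' := mem_image_of_mem _ hb0
    have hcol : ∀ a ∈ T', col j a = t0 := by
      intro a ha
      have := hkk a ha _ hb0'
      rw [hkeyhi, hkeyhi] at this
      exact (Prod.mk.inj this).1
    apply hB j t0 T'
    · intro a ha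
      exact mem_filter.2 ⟨mem_univ _, hcol a ha⟩
    · intro a ha b hb
      have := hkk a ha b hb
      rw [hkeyhi, hkeyhi, hcol a ha, hcol b hb] at this
      exact (Prod.mk.inj this).2

theorem count {d k D B : ℕ}
    (hall : ∀ σ : Fin d → Equiv.Perm (Fin (2 ^ D * B)), ∃ x y col, Drawn (k := k) σ x y col) :
    ∃ N : ℕ, N = d * k * (2 ^ (D + 1) * (2 * (D + 1) + 1) - 1) ∧
    ((2 ^ D * B).factorial) ^ d ≤ 2 ^ (2 ^ N) * ((N + 1) ^ 2) ^ (2 * (2 ^ D * B)) *
      ((k * (2 * (D + 1) + 1)) ^ d) ^ (2 * (2 ^ D * B)) * (B ^ (2 ^ D * B)) ^ d := by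
  classical
  obtain ⟨I, C, K, fI, fC, dec, hI, hC, hdec⟩ := scheme (D + 1)
  set n := 2 ^ D * B with hn
  set N := d * k * (2 ^ (D + 1) * (2 * (D + 1) + 1) - 1) with hN
  refine ⟨N, rfl, ?_⟩
  have hIcard : Fintype.card I = 2 ^ (D + 1) * (2 * (D + 1) + 1) - 1 := by omega
  have hJ : Fintype.card (Fin d × Fin k × I) = N := by
    simp only [Fintype.card_prod, Fintype.card_fin, hIcard, hN]
    ring
  let V := Fin n ⊕ Fin n
  let J := Fin d × Fin k × I
  -- good codes
  let Good : Finset ((V → Finset J) × (V → Fin d → Fin k × C)) :=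
    univ.filter (fun c => ((univ : Finset V).image c.1).card ≤ (N + 1) ^ 2 ∧
      ∀ j, ∀ T : Finset (Fin n), (∀ a ∈ T, ∀ b ∈ T, keyOf dec c.1 c.2 j (Sum.inr a) =
        keyOf dec c.1 c.2 j (Sum.inr b)) → T.card ≤ B)
  let G : (V → Finset J) × (V → Fin d → Fin k × C) → Finset (Fin d → Equiv.Perm (Fin n)) :=
    fun c => univ.filter (fun σ => ∀ j a, keyOf dec c.1 c.2 j (Sum.inl a) =
      keyOf dec c.1 c.2 j (Sum.inr (σ j a)))
  have hcover : (univ : Finset (Fin d → Equiv.Perm (Fin n))) ⊆ Good.biUnion G := by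
    intro σ _
    obtain ⟨x, y, col, hdr⟩ := hall σ
    obtain ⟨loc, cv, ⟨f, hf, hloc⟩, h1, h2⟩ := code_of_drawn hn dec hdec σ x y col hdr
    rw [mem_biUnion]
    refine ⟨(loc, cv), mem_filter.2 ⟨mem_univ _, ?_, h2⟩, mem_filter.2 ⟨mem_univ _, h1⟩⟩
    have h3 := card_image_sign_le x y f hf
    rw [hJ] at h3
    have h4 : loc = fun v => univ.filter (fun i => 0 < f i v) := by
      funext v
      ext i
      rw [mem_filter]
      simp [hloc]
    rw [h4]
    exact h3
  have hG : ∀ c ∈ Good, (G c).card ≤ (B ^ n) ^ d := by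
    intro c hc
    rw [mem_filter] at hc
    obtain ⟨-, -, hcB⟩ := hc
    have h1 : (G c).card ≤ (Fintype.piFinset (fun j : Fin d => Fintype.piFinset (fun a : Fin n =>
        (univ : Finset (Fin n)).filter (fun b => keyOf dec c.1 c.2 j (Sum.inl a) =
          keyOf dec c.1 c.2 j (Sum.inr b))))).card := by
      apply Finset.card_le_card_of_injOn (fun σ j a => σ j a)
      · intro σ hσ
        rw [mem_coe, mem_filter] at hσ
        rw [mem_coe, Fintype.mem_piFinset]
        intro j
        rw [Fintype.mem_piFinset]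
        intro a
        exact mem_filter.2 ⟨mem_univ _, hσ.2 j a⟩
      · intro σ _ τ _ hστ
        funext j
        ext a
        have := congrFun (congrFun hστ j) a
        simp only at this
        rw [this]
    refine h1.trans ?_
    rw [Fintype.card_piFinset]
    calc ∏ j : Fin d, (Fintype.piFinset (fun a : Fin n =>
        (univ : Finset (Fin n)).filter (fun b => keyOf dec c.1 c.2 j (Sum.inl a) =
          keyOf dec c.1 c.2 j (Sum.inr b)))).card ≤ ∏ _j : Fin d, B ^ n := by
          apply Finset.prod_le_prod' 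
          intro j _
          rw [Fintype.card_piFinset]
          calc ∏ a : Fin n, ((univ : Finset (Fin n)).filter (fun b => keyOf dec c.1 c.2 j (Sum.inl a) =
              keyOf dec c.1 c.2 j (Sum.inr b))).card ≤ ∏ _a : Fin n, B := by
                apply Finset.prod_le_prod'
                intro a _
                apply hcB j
                intro b hb b' hb'
                rw [mem_filter] at hb hb'
                exact hb.2.symm.trans hb'.2
            _ = B ^ n := by simp
      _ = (B ^ n) ^ d := by simp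
  have hGood : Good.card ≤ 2 ^ (2 ^ N) * ((N + 1) ^ 2) ^ (2 * n) *
      ((k * (2 * (D + 1) + 1)) ^ d) ^ (2 * n) := by
    have hsub : Good ⊆ ((univ : Finset (V → Finset J)).filter
        (fun l => ((univ : Finset V).image l).card ≤ (N + 1) ^ 2)) ×ˢ
        (univ : Finset (V → Fin d → Fin k × C)) := by
      intro c hc
      rw [mem_filter] at hc
      rw [mem_product]
      exact ⟨mem_filter.2 ⟨mem_univ _, hc.2.1⟩, mem_univ _⟩
    refine (card_le_card hsub).trans ?_
    rw [card_product]
    apply Nat.mul_le_mul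
    · refine (card_small_image ((N + 1) ^ 2)).trans ?_
      have e1 : Fintype.card (Finset J) = 2 ^ N := by
        rw [Fintype.card_finset, hJ]
      have e2 : Fintype.card V = 2 * n := by
        simp only [V, Fintype.card_sum, Fintype.card_fin]
        ring
      rw [e1, e2]
    · simp only [card_univ, Fintype.card_pi, prod_const, Fintype.card_prod, Fintype.card_fin, V,
        Fintype.card_sum, hC]
      have e3 : n + n = 2 * n := by ring
      rw [e3]
  have h1 : (univ : Finset (Fin d → Equiv.Perm (Fin n))).card = (n.factorial) ^ d := by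
    simp [Fintype.card_perm]
  rw [← h1]
  refine (card_le_card hcover).trans ((card_biUnion_le_card_mul _ _ _ hG).trans ?_)
  exact Nat.mul_le_mul_right _ hGood

end Pool.Agent.GeoThick
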