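import Mathlib
import Pool.Agent.GeoThick.Count

set_option autoImplicit false

namespace Pool.Agent.GeoThick

open Finset

theorem pow_self_le (n : ℕ) : n ^ n ≤ 3 ^ n * n.factorial := by
  have h1 := Real.pow_div_factorial_le_exp (x := (n : ℝ)) (by positivity) n
  have h2 : Real.exp (n : ℝ) ≤ 3 ^ n := by
    have : Real.exp (n : ℝ) = (Real.exp 1) ^ n := by
      rw [← Real.exp_nat_mul]
      simp
    rw [this]
    apply pow_le_pow_left₀ (Real.exp_pos 1).le
    have := Real.exp_one_lt_d9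
    linarith
  have h3 : ((n : ℝ)) ^ n ≤ 3 ^ n * (n.factorial : ℝ) := by
    rw [div_le_iff₀ (by positivity)] at h1
    exact h1.trans (mul_le_mul_of_nonneg_right h2 (by positivity))
  exact_mod_cast h3

theorem exists_exp_dominates (C M : ℕ) : ∃ D : ℕ, 1 ≤ D ∧ C * D ^ M ≤ 2 ^ D := by
  have h := tendsto_pow_const_div_const_pow_of_one_lt M (r := (2 : ℝ)) (by norm_num)
  have h2 := h.eventually (gt_mem_nhds (show (0 : ℝ) < 1 / (C + 1) by positivity))
  obtain ⟨D, hD, hD1⟩ := (h2.and (Filter.eventually_ge_atTop 1)).exists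
  refine ⟨D, hD1, ?_⟩
  rw [div_lt_div_iff₀ (by positivity) (by positivity)] at hD
  have h3 : ((C : ℝ)) * (D : ℝ) ^ M ≤ 2 ^ D := by
    have : (0 : ℝ) ≤ (D : ℝ) ^ M := by positivity
    nlinarith
  exact_mod_cast h3

theorem numeric (d k : ℕ) (hd : 5 ≤ d) (hk : 1 ≤ k) : ∃ D B : ℕ,
    2 ^ (2 ^ (d * k * (2 ^ (D + 1) * (2 * (D + 1) + 1) - 1))) *
      ((d * k * (2 ^ (D + 1) * (2 * (D + 1) + 1) - 1) + 1) ^ 2) ^ (2 * (2 ^ D * B)) *
      ((k * (2 * (D + 1) + 1)) ^ d) ^ (2 * (2 ^ D * B)) * (B ^ (2 ^ D * B)) ^ d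
      < ((2 ^ D * B).factorial) ^ d := by
  obtain ⟨D, hD1, hD⟩ := exists_exp_dominates
    ((2 * (d * k) ^ 4 * 16 * k ^ (2 * d) * 3 ^ d) * 5 ^ (4 + 2 * d)) (4 + 2 * d)
  set N := d * k * (2 ^ (D + 1) * (2 * (D + 1) + 1) - 1) with hN
  set E := 2 * (D + 1) + 1 with hE
  refine ⟨D, 2 ^ N + 1, ?_⟩
  set B := 2 ^ N + 1 with hB
  set n := 2 ^ D * B with hn
  set Z := (N + 1) ^ 4 * (k * E) ^ (2 * d) * 3 ^ d with hZ
  have hdk : 1 ≤ d * k := Nat.mul_pos (by omega) (by omega)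
  have hN1 : N + 1 ≤ d * k * 2 ^ (D + 1) * E := by
    have h1 : 1 ≤ 2 ^ (D + 1) * E := Nat.mul_pos (by positivity) (by omega)
    have h2 : d * k * (2 ^ (D + 1) * E - 1) + d * k = d * k * (2 ^ (D + 1) * E) := by
      rw [← Nat.mul_succ]
      congr 1
      omega
    calc N + 1 ≤ N + d * k := by omega
      _ = d * k * (2 ^ (D + 1) * E) := h2
      _ = d * k * 2 ^ (D + 1) * E := by ring
  have hE5 : E ≤ 5 * D := by omega
  have h2Z : 2 * Z ≤ 2 ^ (D * d) := by
    calc 2 * Z ≤ 2 * ((d * k * 2 ^ (D + 1) * E) ^ 4 * (k * E) ^ (2 * d) * 3 ^ d) := by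
          rw [hZ]
          gcongr
      _ = (2 * (d * k) ^ 4 * 16 * k ^ (2 * d) * 3 ^ d) * E ^ (4 + 2 * d) * (2 ^ D) ^ 4 := by
          rw [pow_succ 2 D, pow_add, mul_pow, mul_pow, mul_pow, mul_pow]
          ring
      _ ≤ (2 * (d * k) ^ 4 * 16 * k ^ (2 * d) * 3 ^ d) * (5 * D) ^ (4 + 2 * d) * (2 ^ D) ^ 4 := by
          gcongr
      _ = ((2 * (d * k) ^ 4 * 16 * k ^ (2 * d) * 3 ^ d) * 5 ^ (4 + 2 * d)) * D ^ (4 + 2 * d) *
            (2 ^ D) ^ 4 := by
          rw [mul_pow]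
          ring
      _ ≤ 2 ^ D * (2 ^ D) ^ 4 := Nat.mul_le_mul_right _ hD
      _ = 2 ^ (D * 5) := by
          rw [← pow_mul, ← pow_add]
          congr 1
          ring
      _ ≤ 2 ^ (D * d) := Nat.pow_le_pow_right (by norm_num) (Nat.mul_le_mul_left _ hd)
  have hZpos : 0 < Z := by positivity
  have hBpos : 0 < B := by positivity
  have hnN : 2 ^ N < n := by
    have : 1 ≤ 2 ^ D := Nat.one_le_two_pow
    calc 2 ^ N < B := by omega
      _ = 1 * B := (one_mul _).symm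
      _ ≤ 2 ^ D * B := Nat.mul_le_mul_right _ this
  -- multiply by 3 ^ (n * d)
  have hmain : (2 ^ (2 ^ N) * ((N + 1) ^ 2) ^ (2 * n) * ((k * E) ^ d) ^ (2 * n) * (B ^ n) ^ d) * 3 ^ (n * d)
      < (n.factorial) ^ d * 3 ^ (n * d) := by
    calc (2 ^ (2 ^ N) * ((N + 1) ^ 2) ^ (2 * n) * ((k * E) ^ d) ^ (2 * n) * (B ^ n) ^ d) * 3 ^ (n * d)
        = 2 ^ (2 ^ N) * (Z ^ n * (B ^ n) ^ d) := by
          have a1 : ((N + 1) ^ 2) ^ (2 * n) = ((N + 1) ^ 4) ^ n := by
            rw [← pow_mul, ← pow_mul]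
            congr 1
            ring
          have a2 : ((k * E) ^ d) ^ (2 * n) = ((k * E) ^ (2 * d)) ^ n := by
            rw [← pow_mul, ← pow_mul]
            congr 1
            ring
          have a3 : 3 ^ (n * d) = (3 ^ d) ^ n := by
            rw [← pow_mul]
            congr 1
            ring
          have a4 : Z ^ n = ((N + 1) ^ 4) ^ n * ((k * E) ^ (2 * d)) ^ n * (3 ^ d) ^ n := by
            rw [hZ, mul_pow, mul_pow]
          rw [a1, a2, a3, a4]
          generalize ((N + 1) ^ 4) ^ n = t1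
          generalize ((k * E) ^ (2 * d)) ^ n = t2
          generalize (3 ^ d) ^ n = t3
          generalize (B ^ n) ^ d = t4
          ring
      _ < 2 ^ n * (Z ^ n * (B ^ n) ^ d) := by
          apply Nat.mul_lt_mul_of_pos_right
          · exact Nat.pow_lt_pow_right (by norm_num) hnN
          · positivity
      _ = (2 * Z) ^ n * (B ^ n) ^ d := by
          rw [mul_pow 2 Z n, mul_assoc]
      _ ≤ (2 ^ (D * d)) ^ n * (B ^ n) ^ d := by gcongr
      _ = (n ^ n) ^ d := by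
          have e1 : n ^ n = (2 ^ D * B) ^ n := rfl
          have e2 : (2 ^ (D * d)) ^ n = ((2 ^ D) ^ n) ^ d := by
            rw [← pow_mul, ← pow_mul, ← pow_mul]
            congr 1
            ring
          rw [e1, mul_pow, mul_pow, e2]
      _ ≤ (3 ^ n * n.factorial) ^ d := Nat.pow_le_pow_left (pow_self_le n) d
      _ = (n.factorial) ^ d * 3 ^ (n * d) := by
          rw [mul_pow, ← pow_mul, mul_comm]
  exact Nat.lt_of_mul_lt_mul_right hmain

/-- For every `d ≥ 5` and every number `k` of colours there are `d` permutations whose bipartite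
graph cannot be drawn. -/
theorem exists_not_drawn (d k : ℕ) (hd : 5 ≤ d) (hk : 1 ≤ k) :
    ∃ (n : ℕ) (σ : Fin d → Equiv.Perm (Fin n)), ∀ x y col, ¬ Drawn (k := k) σ x y col := by
  obtain ⟨D, B, hlt⟩ := numeric d k hd hk
  by_contra hcon
  push Not at hcon
  obtain ⟨N, hN, hle⟩ := count (d := d) (k := k) (D := D) (B := B) (fun σ => hcon _ σ)
  rw [hN] at hle
  exact absurd hle (not_le.2 hlt)

end Pool.Agent.GeoThick
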