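import Mathlib
import Pool.Agent.GeoThick.Numeric

set_option autoImplicit false

namespace Pool.Agent.GeoThick

open Finset

/-- Finitely many direction classes such that two directions of one class make an angle `< c`. -/
theorem direction_classes (c : ℝ) (hc : 0 < c) :
    ∃ (k : ℕ) (cls : EuclideanSpace ℝ (Fin 2) → Fin k), 1 ≤ k ∧
      ∀ w w', w ≠ 0 → w' ≠ 0 → cls w = cls w' → InnerProductGeometry.angle w w' < c := by
  classical
  have hcomp : IsCompact (Metric.sphere (0 : EuclideanSpace ℝ (Fin 2)) 1) := isCompact_sphere 0 1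
  obtain ⟨t, ht1, ht2⟩ := hcomp.elim_nhds_subcover
    (fun y => {w | InnerProductGeometry.angle y w < c / 2}) (by
      intro y hy
      have hy0 : y ≠ 0 := by
        rintro rfl
        simp at hy
      have hcont : ContinuousAt (fun w => InnerProductGeometry.angle y w) y := by
        have h1 := InnerProductGeometry.continuousAt_angle (x := (y, y)) hy0 hy0
        exact ContinuousAt.comp (f := fun w => (y, w)) (g := fun z : EuclideanSpace ℝ (Fin 2) × EuclideanSpace ℝ (Fin 2) => InnerProductGeometry.angle z.1 z.2) h1 (by fun_prop)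
      apply hcont.eventually_lt continuousAt_const
      rw [InnerProductGeometry.angle_self hy0]
      positivity)
  have hw : ∀ w : EuclideanSpace ℝ (Fin 2), w ≠ 0 → ∃ x : t, InnerProductGeometry.angle (x : EuclideanSpace ℝ (Fin 2)) w < c / 2 := by
    intro w hw
    have h1 : NormedSpace.normalize w ∈ Metric.sphere (0 : EuclideanSpace ℝ (Fin 2)) 1 := by
      simp [NormedSpace.norm_normalize_eq_one_iff.2 hw]
    have h2 := ht2 h1
    simp only [Set.mem_iUnion] at h2
    obtain ⟨x, hx, hx2⟩ := h2
    refine ⟨⟨x, hx⟩, ?_⟩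
    simpa using hx2
  have hne : Nonempty t := by
    have h0 : (EuclideanSpace.single (0 : Fin 2) (1 : ℝ)) ≠ 0 := by simp
    exact ⟨(hw _ h0).choose⟩
  let g : EuclideanSpace ℝ (Fin 2) → t := fun w => if h : w ≠ 0 then (hw w h).choose else Classical.arbitrary t
  refine ⟨Fintype.card t, fun w => Fintype.equivFin t (g w), Fintype.card_pos, ?_⟩
  intro w w' h1 h2 heq
  have hg : g w = g w' := (Fintype.equivFin t).injective heq
  have e1 : InnerProductGeometry.angle ((g w : t) : EuclideanSpace ℝ (Fin 2)) w < c / 2 := by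
    simp only [g, dif_pos h1]
    exact (hw w h1).choose_spec
  have e2 : InnerProductGeometry.angle ((g w' : t) : EuclideanSpace ℝ (Fin 2)) w' < c / 2 := by
    simp only [g, dif_pos h2]
    exact (hw w' h2).choose_spec
  rw [← hg] at e2
  have e3 := InnerProductGeometry.angle_le_angle_add_angle w ((g w : t) : EuclideanSpace ℝ (Fin 2)) w'
  have e4 := InnerProductGeometry.angle_comm w ((g w : t) : EuclideanSpace ℝ (Fin 2))
  linarith

/-- A point of the segment at a prescribed sheared height. -/
theorem mem_segment_at {u v : EuclideanSpace ℝ (Fin 2)} {s h : ℝ}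
    (hne : u 1 + s * u 0 ≠ v 1 + s * v 0)
    (h1 : min (u 1 + s * u 0) (v 1 + s * v 0) ≤ h) (h2 : h ≤ max (u 1 + s * u 0) (v 1 + s * v 0)) :
    ∃ q ∈ segment ℝ u v, q 0 = u 0 + (h - (u 1 + s * u 0)) / ((v 1 + s * v 0) - (u 1 + s * u 0)) * (v 0 - u 0)
      ∧ q 1 = h - s * q 0 := by
  set yu := u 1 + s * u 0 with hyu
  set yv := v 1 + s * v 0 with hyv
  have hd : yv - yu ≠ 0 := sub_ne_zero.2 hne.symm
  set t := (h - yu) / (yv - yu) with ht
  have ht0 : 0 ≤ t := by
    rcases lt_or_gt_of_ne hne with hlt | hlt
    · rw [min_eq_left hlt.le] at h1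
      exact div_nonneg (by linarith) (by linarith)
    · rw [max_eq_left hlt.le] at h2
      exact div_nonneg_of_nonpos (by linarith) (by linarith)
  have ht1 : t ≤ 1 := by
    rcases lt_or_gt_of_ne hne with hlt | hlt
    · rw [max_eq_right hlt.le] at h2
      rw [ht, div_le_one (by linarith)]
      linarith
    · rw [min_eq_right hlt.le] at h1
      rw [ht, div_le_one_of_neg (by linarith)]
      linarith
  refine ⟨u + t • (v - u), ?_, ?_, ?_⟩
  · rw [segment_eq_image']
    exact ⟨t, ⟨ht0, ht1⟩, rfl⟩
  · simp
  · have hth : t * (yv - yu) = h - yu := by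
      rw [ht]
      field_simp
    simp only [PiLp.add_apply, PiLp.smul_apply, PiLp.sub_apply, smul_eq_mul]
    have : t * (yv - yu) = t * (v 1 - u 1) + s * (t * (v 0 - u 0)) := by
      rw [hyv, hyu]
      ring
    rw [this] at hth
    linarith

theorem drawn_of_disjoint {d n k : ℕ} (σ : Fin d → Equiv.Perm (Fin n))
    (p : Fin n ⊕ Fin n → EuclideanSpace ℝ (Fin 2)) (hp : Function.Injective p)
    (col : Fin d → Fin n → Fin k)
    (hdis : ∀ j a b, a ≠ b → col j a = col j b →
      Disjoint (segment ℝ (p (Sum.inl a)) (p (Sum.inr (σ j a))))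
        (segment ℝ (p (Sum.inl b)) (p (Sum.inr (σ j b))))) :
    ∃ x y, Drawn σ x y col := by
  classical
  obtain ⟨s, hs⟩ := Infinite.exists_notMem_finset
    ((univ : Finset ((Fin n ⊕ Fin n) × (Fin n ⊕ Fin n))).image
      (fun uv => (p uv.2 1 - p uv.1 1) / (p uv.1 0 - p uv.2 0)))
  have hyinj : Function.Injective (fun v => p v 1 + s * p v 0) := by
    intro u v huv
    simp only at huv
    by_contra hne
    by_cases h0 : p u 0 = p v 0
    · have h1 : p u 1 = p v 1 := by rw [h0] at huv; linarith
      apply hne
      apply hp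
      ext i
      fin_cases i
      · exact h0
      · exact h1
    · apply hs
      rw [mem_image]
      refine ⟨(u, v), mem_univ _, ?_⟩
      simp only
      have : p u 0 - p v 0 ≠ 0 := sub_ne_zero.2 h0
      rw [div_eq_iff this]
      linarith
  refine ⟨fun v => p v 0, fun v => p v 1 + s * p v 0, hyinj, ?_⟩
  intro j a b hab hcol h h1 h2 h3 h4 heq
  have hna : p (Sum.inl a) 1 + s * p (Sum.inl a) 0 ≠ p (Sum.inr (σ j a)) 1 + s * p (Sum.inr (σ j a)) 0 := by
    intro h
    have := hyinj h
    simp at this
  have hnb : p (Sum.inl b) 1 + s * p (Sum.inl b) 0 ≠ p (Sum.inr (σ j b)) 1 + s * p (Sum.inr (σ j b)) 0 := by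
    intro h
    have := hyinj h
    simp at this
  obtain ⟨q, hq1, hq2, hq3⟩ := mem_segment_at hna h1 h2
  obtain ⟨r, hr1, hr2, hr3⟩ := mem_segment_at hnb h3 h4
  have hqr : q = r := by
    have e0 : q 0 = r 0 := by
      rw [hq2, hr2]
      exact heq
    ext i
    fin_cases i
    · exact e0
    · show q 1 = r 1
      rw [hq3, hr3, e0]
  exact Set.disjoint_left.1 (hdis j a b hab hcol) hq1 (hqr ▸ hr1)

/-- The graph: a bipartite union of `d` perfect matchings, plus a disjoint star with `d` leaves. -/
def gr {d n : ℕ} (σ : Fin d → Equiv.Perm (Fin n)) : SimpleGraph ((Fin n ⊕ Fin n) ⊕ Fin (d + 1)) :=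
  SimpleGraph.fromRel (fun u v => match u, v with
    | Sum.inl (Sum.inl a), Sum.inl (Sum.inr b) => ∃ j, σ j a = b
    | Sum.inr i, Sum.inr i' => i = 0 ∧ i' ≠ 0
    | _, _ => False)

theorem gr_adj {d n : ℕ} (σ : Fin d → Equiv.Perm (Fin n)) (j : Fin d) (a : Fin n) :
    (gr σ).Adj (Sum.inl (Sum.inl a)) (Sum.inl (Sum.inr (σ j a))) := by
  simp [gr, SimpleGraph.fromRel_adj]

open Classical in
theorem gr_maxDegree {d n : ℕ} (hd : 1 ≤ d) (σ : Fin d → Equiv.Perm (Fin n)) :
    (gr σ).maxDegree = d := by
  apply le_antisymm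
  · apply SimpleGraph.maxDegree_le_of_forall_degree_le
    rintro ((a | b) | i)
    · have hsub : (gr σ).neighborFinset (Sum.inl (Sum.inl a)) ⊆
          (univ : Finset (Fin d)).image (fun j => Sum.inl (Sum.inr (σ j a))) := by
        intro w hw
        rw [SimpleGraph.mem_neighborFinset] at hw
        rw [mem_image]
        rcases w with (a' | b') | i'
        · simp [gr, SimpleGraph.fromRel_adj] at hw
        · simp [gr, SimpleGraph.fromRel_adj] at hw
          obtain ⟨j, hj⟩ := hw
          exact ⟨j, mem_univ _, by rw [hj]⟩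
        · simp [gr, SimpleGraph.fromRel_adj] at hw
      have := (card_le_card hsub).trans card_image_le
      simpa using this
    · have hsub : (gr σ).neighborFinset (Sum.inl (Sum.inr b)) ⊆
          (univ : Finset (Fin d)).image (fun j => Sum.inl (Sum.inl ((σ j).symm b))) := by
        intro w hw
        rw [SimpleGraph.mem_neighborFinset] at hw
        rw [mem_image]
        rcases w with (a' | b') | i'
        · simp [gr, SimpleGraph.fromRel_adj] at hw
          obtain ⟨j, hj⟩ := hw
          exact ⟨j, mem_univ _, by rw [← hj]; simp⟩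
        · simp [gr, SimpleGraph.fromRel_adj] at hw
        · simp [gr, SimpleGraph.fromRel_adj] at hw
      have := (card_le_card hsub).trans card_image_le
      simpa using this
    · by_cases hi : i = 0
      · subst hi
        have hsub : (gr σ).neighborFinset (Sum.inr 0) ⊆
            (univ : Finset (Fin d)).image (fun j => Sum.inr j.succ) := by
          intro w hw
          rw [SimpleGraph.mem_neighborFinset] at hw
          rw [mem_image]
          rcases w with (a' | b') | i'
          · simp [gr, SimpleGraph.fromRel_adj] at hw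
          · simp [gr, SimpleGraph.fromRel_adj] at hw
          · simp [gr, SimpleGraph.fromRel_adj] at hw
            obtain ⟨j, hj⟩ := Fin.exists_succ_eq.2 hw.2
            exact ⟨j, mem_univ _, by rw [hj]⟩
        have := (card_le_card hsub).trans card_image_le
        simpa using this
      · have hsub : (gr σ).neighborFinset (Sum.inr i) ⊆ {Sum.inr 0} := by
          intro w hw
          rw [SimpleGraph.mem_neighborFinset] at hw
          rw [mem_singleton]
          rcases w with (a' | b') | i'
          · simp [gr, SimpleGraph.fromRel_adj] at hw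
          · simp [gr, SimpleGraph.fromRel_adj] at hw
          · simp [gr, SimpleGraph.fromRel_adj, hi] at hw
            rw [hw.2]
        have := card_le_card hsub
        simp at this
        omega
  · have h1 : d ≤ (gr σ).degree (Sum.inr 0) := by
      have hsub : (univ : Finset (Fin d)).image (fun j => (Sum.inr j.succ : (Fin n ⊕ Fin n) ⊕ Fin (d + 1)))
          ⊆ (gr σ).neighborFinset (Sum.inr 0) := by
        intro w hw
        rw [mem_image] at hw
        obtain ⟨j, -, rfl⟩ := hw
        rw [SimpleGraph.mem_neighborFinset]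
        simp [gr, SimpleGraph.fromRel_adj, Fin.succ_ne_zero, (Fin.succ_ne_zero j).symm]
      have h2 := card_le_card hsub
      rw [card_image_of_injective] at h2
      · simpa using h2
      · intro a b hab
        simpa using hab
    exact h1.trans (SimpleGraph.degree_le_maxDegree _ _)

/-- For every `d ≥ 5` the crossing angular resolution of graphs of maximum degree `d` has no
positive lower bound. -/
theorem no_crossing_angle_bound (d : ℕ) (hd : 5 ≤ d) : ¬ ∃ c : ℝ, 0 < c ∧
    ∀ (V : Type) [Fintype V] [DecidableEq V] (G : SimpleGraph V) [DecidableRel G.Adj],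
      G.maxDegree = d →
      ∃ p : V → EuclideanSpace ℝ (Fin 2),
        Function.Injective p ∧
        (∀ w u v : V, G.Adj u v → w ≠ u → w ≠ v → p w ∉ segment ℝ (p u) (p v)) ∧
        (∀ u v x y : V, G.Adj u v → G.Adj x y →
          u ≠ x → u ≠ y → v ≠ x → v ≠ y →
          (segment ℝ (p u) (p v) ∩ segment ℝ (p x) (p y)).Nonempty →
          c ≤ InnerProductGeometry.angle (p v - p u) (p y - p x) ∧
          InnerProductGeometry.angle (p v - p u) (p y - p x) ≤ Real.pi - c) := by
  classical
  rintro ⟨c, hc, hall⟩
  obtain ⟨k, cls, hk, hcls⟩ := direction_classes c hc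
  obtain ⟨n, σ, hσ⟩ := exists_not_drawn d k hd hk
  obtain ⟨p, hp, -, hang⟩ := hall _ (gr σ) (gr_maxDegree (by omega) σ)
  obtain ⟨x, y, hxy⟩ := drawn_of_disjoint σ (fun v => p (Sum.inl v))
    (fun u v huv => Sum.inl_injective (hp huv))
    (fun j a => cls (p (Sum.inl (Sum.inr (σ j a))) - p (Sum.inl (Sum.inl a)))) (by
      intro j a b hab hcol
      rw [Set.disjoint_iff_inter_eq_empty]
      by_contra hne
      rw [← ne_eq, ← Set.nonempty_iff_ne_empty] at hne
      have h1 := hang _ _ _ _ (gr_adj σ j a) (gr_adj σ j b) (by simpa using hab) (by simp) (by simp)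
        (by simpa using hab) hne
      have h2 := hcls _ _ (sub_ne_zero.2 (fun h => by simpa using hp h))
        (sub_ne_zero.2 (fun h => by simpa using hp h)) hcol
      linarith [h1.1])
  exact hσ x y _ hxy

end Pool.Agent.GeoThick
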